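import Mathlib
import Pool.Agent.W245.EB.LinGen

/-!
# Generic combinations of arbitrary complex numbers and their exponentials, in bounded degree

Let `w_1, …, w_R` be *arbitrary* complex numbers, linearly independent over `ℚ`, let `W` be a space
of complex numbers of dimension at most `N` over the algebraic numbers (for instance spanned by
`1, 2πi, …, (2πi)^D`), and let `R ≥ N (D + 1)^k`. Consider the tuples `x_i = ∑_j m_{ij} w_j`, `i ≤ k`,
with integers `m_{ij}`.

* If the `w_j` span a space of dimension at least `N (D + 1)^k` over the algebraic numbers, then for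
  all `m` outside a hypersurface the numbers `x_1, …, x_k` satisfy no nontrivial polynomial relation of
  degree at most `D` in each variable with coefficients in `W`.
* If some `e^{w_j}` is transcendental, then for all `m` outside a hypersurface the numbers
  `e^{x_1}, …, e^{x_k}` satisfy no nontrivial polynomial relation of degree at most `D` in each variable
  whose coefficients are polynomials in `x_1, …, x_k` of degree at most `D` in each variable with
  coefficients in `W`.
* At least one of the two hypotheses holds (Baker's theorem).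

The proof uses Baker's theorem (`Pool.Agent.H297R2.BakerThm`), evaluation determinants for the first
part, and valuations of the field of complex numbers which are trivial on the algebraic numbers for
the second.
-/

noncomputable section

namespace Pool.Agent.Results.MP_12eca1_ag.GenericSchanuel

/-- The field of algebraic numbers. -/
abbrev Qbar : IntermediateField ℚ ℂ := algebraicClosure ℚ ℂ

/-- The numbers `x_i` satisfy no nontrivial polynomial relation, of degree at most `D` in each of
them, with coefficients in `W`. -/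
def NoRelation {k : ℕ} (W : Submodule Qbar ℂ) (D : ℕ) (x : Fin k → ℂ) : Prop :=
  ∀ Q : MvPolynomial (Fin k) ℂ, (∀ i, Q.degreeOf i ≤ D) → (∀ s, Q.coeff s ∈ W) →
    MvPolynomial.eval x Q = 0 → Q = 0

/-- The values at `x` of the polynomials of degree at most `D` in each variable with coefficients in
`W`. -/
def Polys {k : ℕ} (W : Submodule Qbar ℂ) (D : ℕ) (x : Fin k → ℂ) : Submodule Qbar ℂ :=
  Submodule.span Qbar {z | ∃ u ∈ W, ∃ a : Fin k → ℕ, (∀ i, a i ≤ D) ∧ z = u * ∏ i, x i ^ a i}

/-- The combinations `x_i = ∑_j m_{ij} w_j`. -/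
def comb {k R : ℕ} (w : Fin R → ℂ) (m : Fin k → Fin R → ℤ) (i : Fin k) : ℂ :=
  ∑ j, (m i j : ℂ) * w j

open Pool.Agent.W245.EB

/-- **Main result.** -/
theorem result (N k D R : ℕ) (hR : N * (D + 1) ^ k ≤ R) (w : Fin R → ℂ)
    (hw : LinearIndependent ℚ w) (W : Submodule Qbar ℂ) (hfin : Module.Finite Qbar W)
    (hW : Module.finrank Qbar W ≤ N) :
    (N * (D + 1) ^ k ≤ Module.finrank Qbar (Submodule.span Qbar (Set.range w)) ∨
      ∃ j, ¬ IsAlgebraic ℚ (Complex.exp (w j))) ∧
    (N * (D + 1) ^ k ≤ Module.finrank Qbar (Submodule.span Qbar (Set.range w)) →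
      ∃ F : MvPolynomial (Fin k × Fin R) Qbar, F ≠ 0 ∧
        F.totalDegree ≤ N * (D + 1) ^ k * (k * D) ∧
        ∀ m : Fin k → Fin R → ℤ, MvPolynomial.eval (fun p => ((m p.1 p.2 : ℤ) : Qbar)) F ≠ 0 →
          NoRelation W D (comb w m)) ∧
    ((∃ j, ¬ IsAlgebraic ℚ (Complex.exp (w j))) →
      ∃ F : MvPolynomial (Fin k × Fin R) Qbar, F ≠ 0 ∧
        F.totalDegree ≤ (N * (R + 1) ^ (k * D)) ^ 2 * ((2 * D + 1) ^ k - 1) ∧
        ∀ m : Fin k → Fin R → ℤ, MvPolynomial.eval (fun p => ((m p.1 p.2 : ℤ) : Qbar)) F ≠ 0 →
          NoRelation (Polys W D (comb w m)) D (fun i => Complex.exp (comb w m i))) := by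
  refine ⟨?_, ?_, ?_⟩
  · by_cases h : ∃ j, ¬ IsAlgebraic ℚ (Complex.exp (w j))
    · exact Or.inr h
    · left
      push Not at h
      have hli : LinearIndependent Qb w := LogFam.indep ⟨h, hw⟩
      have h1 : Module.finrank Qb (Submodule.span Qb (Set.range w)) = R := by
        rw [finrank_span_eq_card hli, Fintype.card_fin]
      rw [h1]
      exact hR
  · intro h
    obtain ⟨F, h0, h1, h2⟩ := lin_generic w k D N W hfin hW h
    refine ⟨F, h0, h1, fun m hm => ?_⟩
    have h3 := h2 (fun i j => ((m i j : ℤ) : Qb)) hm
    have h4 : (fun i => ∑ j, ((((m i j : ℤ) : Qb)) : ℂ) * w j) = comb w m := by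
      funext i
      unfold comb
      apply Finset.sum_congr rfl
      intro j _
      push_cast
      rfl
    rw [h4] at h3
    exact h3
  · rintro ⟨j, hj⟩
    exact exp_generic_poly w ⟨j, fun h => hj (mem_QB.1 h)⟩ k D N W hfin hW

end Pool.Agent.Results.MP_12eca1_ag.GenericSchanuel
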